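import Mathlib

/-! # Project ZC (helper51), job DEC: the fields over `k` in which a number field is embedded -/

set_option autoImplicit false
set_option linter.unusedSectionVars false

namespace Pool.Agent.Q150.ZC

open Polynomial Finset

variable {k E K : Type} [Field k] [CharZero k] [Field E] [CharZero E] [Algebra k E]
  [Algebra.IsAlgebraic k E] [IsAlgClosed E] [Field K] [NumberField K]

/-- a generator -/
noncomputable def gn (K : Type) [Field K] [NumberField K] : K :=
  (Field.powerBasisOfFiniteOfSeparable ℚ K).gen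

lemma hom_ext {R : Type} [Field R] (u v : K →+* R) (h : u (gn K) = v (gn K)) : u = v := by
  have : CharZero R := charZero_of_injective_ringHom u.injective
  have e : (u.toRatAlgHom : K →ₐ[ℚ] R) = v.toRatAlgHom :=
    PowerBasis.algHom_ext (Field.powerBasisOfFiniteOfSeparable ℚ K) h
  ext x
  exact DFunLike.congr_fun e x

theorem exists_hom (h : k[X]) [Fact (Irreducible h)] (σ : K →+* E) (hσ : minpoly k (σ (gn K)) = h) :
    ∃ φ : K →+* AdjoinRoot h, φ (gn K) = AdjoinRoot.root h := by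
  have : CharZero (AdjoinRoot h) :=
    charZero_of_injective_ringHom (algebraMap k (AdjoinRoot h)).injective
  have hroot : aeval (AdjoinRoot.root h) (minpoly ℚ (gn K)) = 0 := by
    have h1 : h ∣ (minpoly ℚ (gn K)).map (algebraMap ℚ k) := by
      rw [← hσ]
      apply minpoly.dvd
      rw [aeval_map_algebraMap]
      have h2 : aeval (σ (gn K)) (minpoly ℚ (gn K)) =
          (σ.toRatAlgHom : K →ₐ[ℚ] E) (aeval (gn K) (minpoly ℚ (gn K))) := by
        rw [← aeval_algHom_apply]
        rfl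
      rw [h2, minpoly.aeval, map_zero]
    obtain ⟨g, hg⟩ := h1
    have h3 : aeval (AdjoinRoot.root h) ((minpoly ℚ (gn K)).map (algebraMap ℚ k)) = 0 := by
      rw [hg, map_mul, AdjoinRoot.aeval_eq, AdjoinRoot.mk_self, zero_mul]
    rw [aeval_map_algebraMap] at h3
    exact h3
  refine ⟨((Field.powerBasisOfFiniteOfSeparable ℚ K).lift (AdjoinRoot.root h) hroot).toRingHom, ?_⟩
  exact PowerBasis.lift_gen _ _ _

theorem prod_fib {M : Type} [CommMonoid M] (h : k[X]) [Fact (Irreducible h)] (hm : h.Monic)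
    (φ : K →+* AdjoinRoot h) (hφ : φ (gn K) = AdjoinRoot.root h) (F : (K →+* E) → M)
    [Fintype (AdjoinRoot h →ₐ[k] E)] [DecidableEq k[X]] :
    ∏ σ ∈ univ.filter (fun σ : K →+* E => minpoly k (σ (gn K)) = h), F σ =
      ∏ τ : AdjoinRoot h →ₐ[k] E, F ((τ : AdjoinRoot h →+* E).comp φ) := by
  symm
  have hroot : ∀ τ : AdjoinRoot h →ₐ[k] E,
      ((τ : AdjoinRoot h →+* E).comp φ) (gn K) = τ (AdjoinRoot.root h) := by
    intro τ
    rw [RingHom.comp_apply, hφ]
    rfl
  refine Finset.prod_bij (fun τ _ => (τ : AdjoinRoot h →+* E).comp φ) ?_ ?_ ?_ ?_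
  · intro τ _
    rw [mem_filter]
    refine ⟨mem_univ _, ?_⟩
    symm
    apply minpoly.eq_of_irreducible_of_monic Fact.out _ hm
    rw [hroot]
    have h2 : aeval (τ (AdjoinRoot.root h)) h = τ (aeval (AdjoinRoot.root h) h) := by
      rw [← aeval_algHom_apply]
    rw [h2, AdjoinRoot.aeval_eq, AdjoinRoot.mk_self, map_zero]
  · intro τ _ τ' _ he
    apply AdjoinRoot.algHom_ext
    rw [← hroot, ← hroot, he]
  · intro σ hσ
    rw [mem_filter] at hσ
    have h2 : eval₂ (Algebra.ofId k E : k →+* E) (σ (gn K)) h = 0 := by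
      rw [← hσ.2]
      exact minpoly.aeval _ _
    refine ⟨AdjoinRoot.liftAlgHom h (Algebra.ofId k E) (σ (gn K)) h2, mem_univ _, ?_⟩
    apply hom_ext
    rw [hroot, AdjoinRoot.liftAlgHom_root]
  · intro τ _
    rfl

theorem deg_fib (h : k[X]) [Fact (Irreducible h)] (hm : h.Monic)
    (φ : K →+* AdjoinRoot h) (hφ : φ (gn K) = AdjoinRoot.root h) [DecidableEq k[X]] :
    (univ.filter (fun σ : K →+* E => minpoly k (σ (gn K)) = h)).card =
      Module.finrank k (AdjoinRoot h) := by
  have : FiniteDimensional k (AdjoinRoot h) := (AdjoinRoot.powerBasis hm.ne_zero).finite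
  rw [← AlgHom.card k (AdjoinRoot h) E]
  have h1 := prod_fib (M := Multiplicative ℕ) (E := E) h hm φ hφ (fun _ => Multiplicative.ofAdd 1)
  rw [prod_const, prod_const, card_univ, ← ofAdd_nsmul, ← ofAdd_nsmul] at h1
  have h2 := Multiplicative.ofAdd.injective h1
  simpa using h2

/-- a finite extension of `k` with an embedding of `K` -/
structure Fld (k K : Type) [Field k] [Field K] where
  /-- the field -/
  L : Type
  [fld : Field L]
  [alg : Algebra k L]
  [fin : FiniteDimensional k L]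
  /-- the embedding -/
  φ : K →+* L

attribute [instance] Fld.fld Fld.alg Fld.fin

variable (k E K) in
/-- the decomposition -/
theorem decomp : ∃ (β : Type) (_ : Fintype β) (Y : β → Fld k K),
    ∑ i, Module.finrank k (Y i).L = Module.finrank ℚ K ∧
    ∀ (M : Type) [CommMonoid M] (F : (K →+* E) → M),
      ∏ i, ∏ τ : (Y i).L →ₐ[k] E, F ((τ : (Y i).L →+* E).comp (Y i).φ) = ∏ σ : K →+* E, F σ := by
  classical
  obtain ⟨J, hJ⟩ : ∃ J : Finset k[X], J = univ.image fun σ : K →+* E => minpoly k (σ (gn K)) :=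
    ⟨_, rfl⟩
  have hint : ∀ x : E, IsIntegral k x := fun x =>
    (Algebra.IsAlgebraic.isAlgebraic (R := k) x).isIntegral
  have hmem : ∀ h ∈ J, ∃ σ : K →+* E, minpoly k (σ (gn K)) = h := by
    intro h hh
    rw [hJ, mem_image] at hh
    obtain ⟨σ, -, hσ⟩ := hh
    exact ⟨σ, hσ⟩
  have hirr : ∀ h ∈ J, Irreducible h := by
    intro h hh
    obtain ⟨σ, hσ⟩ := hmem h hh
    rw [← hσ]
    exact minpoly.irreducible (hint _)
  have hmon : ∀ h ∈ J, h.Monic := by
    intro h hh
    obtain ⟨σ, hσ⟩ := hmem h hh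
    rw [← hσ]
    exact minpoly.monic (hint _)
  have hex : ∀ h : {h // h ∈ J}, ∃ (Z : Fld k K), Module.finrank k Z.L =
      (univ.filter (fun σ : K →+* E => minpoly k (σ (gn K)) = h.1)).card ∧
      ∀ (M : Type) [CommMonoid M] (F : (K →+* E) → M),
      ∏ σ ∈ univ.filter (fun σ : K →+* E => minpoly k (σ (gn K)) = h.1), F σ =
      ∏ τ : Z.L →ₐ[k] E, F ((τ : Z.L →+* E).comp Z.φ) := by
    rintro ⟨h, hh⟩
    have : Fact (Irreducible h) := ⟨hirr h hh⟩
    obtain ⟨σ, hσ⟩ := hmem h hh
    obtain ⟨φ, hφ⟩ := exists_hom h σ hσ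
    have hfd : FiniteDimensional k (AdjoinRoot h) := (AdjoinRoot.powerBasis (hmon h hh).ne_zero).finite
    refine ⟨⟨AdjoinRoot h, φ⟩, (deg_fib h (hmon h hh) φ hφ).symm, ?_⟩
    intro M _ F
    exact prod_fib h (hmon h hh) φ hφ F
  choose Z hZ1 hZ2 using hex
  refine ⟨{h // h ∈ J}, inferInstance, Z, ?_, ?_⟩
  · simp only [hZ1]
    rw [Finset.sum_coe_sort J (fun h => (univ.filter (fun σ : K →+* E => minpoly k (σ (gn K)) = h)).card),
      ← Finset.card_eq_sum_card_fiberwise (s := (univ : Finset (K →+* E))) (t := J), card_univ,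
      NumberField.Embeddings.card]
    intro σ _
    rw [hJ]
    exact mem_coe.mpr (mem_image_of_mem _ (mem_univ σ))
  · intro M _ F
    have h1 : ∀ i : {h // h ∈ J}, ∏ τ : (Z i).L →ₐ[k] E, F ((τ : (Z i).L →+* E).comp (Z i).φ) =
        ∏ σ ∈ univ.filter (fun σ : K →+* E => minpoly k (σ (gn K)) = i.1), F σ := fun i =>
      (hZ2 i M F).symm
    rw [prod_congr rfl fun i _ => h1 i]
    rw [Finset.prod_coe_sort J (fun h => ∏ σ ∈ univ.filter (fun σ : K →+* E => minpoly k (σ (gn K)) = h), F σ)]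
    apply Finset.prod_fiberwise_of_maps_to
    intro σ _
    rw [hJ]
    exact mem_image_of_mem _ (mem_univ σ)

end Pool.Agent.Q150.ZC
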