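import Pool.Agent.Q51.ZC.Stm2
import Pool.Agent.Q150.ZC.DecA

/-! # Project ZC (helper51), job DEC: closed points over `ℚ` give zero-cycles over `ℚ_p` -/

set_option autoImplicit false

namespace Pool.Agent.Q150.ZC

open Polynomial Finset NumberField
open Pool.Agent.Q51.ZC
open Pool.Agent.Q51.SE (Alg cl Point IsValue)

/-- the homomorphism `K[X]/(f) → L[X]/(f)` given by a homomorphism of fields -/
noncomputable def chg (f : ℤ[X]) {K L : Type} [Field K] [Field L] (φ : K →+* L) :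
    Alg f K →+* Alg f L :=
  AdjoinRoot.map φ (f.map (Int.castRingHom K)) (f.map (Int.castRingHom L)) (by
    rw [Polynomial.map_map]
    exact dvd_of_eq (congrArg (fun i => f.map i) (RingHom.ext_int _ _)))

lemma chg_cl (f : ℤ[X]) {K L : Type} [Field K] [Field L] (φ : K →+* L) (g : K[X]) :
    chg f φ (cl f K g) = cl f L (g.map φ) := by
  unfold chg cl AdjoinRoot.map
  rw [AdjoinRoot.lift_mk]
  rw [← eval₂_map, ← AdjoinRoot.aeval_eq]
  rfl

lemma bas_eq (f : ℤ[X]) (k K : Type) [Field k] [Field K] [Algebra k K] (A : Alg f k) :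
    bas f k K A = chg f (algebraMap k K) A := rfl

lemma ev_chg {f : ℤ[X]} {K L E : Type} [Field K] [Field L] [Field E] (φ : K →+* L) (i : L →+* E)
    {ρ : E} (hρ : IsZ f ρ) (A : Alg f K) : ev f i ρ (chg f φ A) = ev f (i.comp φ) ρ A := by
  obtain ⟨g, rfl⟩ := AdjoinRoot.mk_surjective A
  have h1 : AdjoinRoot.mk (f.map (Int.castRingHom K)) g = cl f K g := rfl
  rw [h1, chg_cl, ev_cl i hρ, ev_cl (i.comp φ) hρ, eval₂_map]

lemma norm_chg (hN : S_NRM) {f : ℤ[X]} (hf : Irreducible (f.map (Int.castRingHom ℚ)))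
    {K L : Type} [Field K] [Field L] [CharZero K] [CharZero L] (φ : K →+* L) (b : Alg f K) :
    Algebra.norm L (chg f φ b) = φ (Algebra.norm K b) := by
  classical
  have h1 := (hN f hf).2 L (AlgebraicClosure L) (algebraMap L (AlgebraicClosure L)) (chg f φ b)
  have h2 := (hN f hf).2 K (AlgebraicClosure L) ((algebraMap L (AlgebraicClosure L)).comp φ) b
  apply (algebraMap L (AlgebraicClosure L)).injective
  rw [h1]
  rw [RingHom.comp_apply] at h2
  rw [h2]
  refine prod_congr rfl fun ρ hρ => ?_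
  have hz : IsZ f ρ := by
    have h4 := Multiset.mem_toFinset.mp hρ
    rw [mem_roots'] at h4
    exact h4.2
  exact ev_chg φ _ hz b

/-- an element is determined by its values at the zeros -/
lemma ev_inj {f : ℤ[X]} (hf : Irreducible (f.map (Int.castRingHom ℚ))) {k E : Type} [Field k]
    [CharZero k] [Field E] [IsAlgClosed E] (i : k →+* E) (A A' : Alg f k)
    (h : ∀ ρ : E, IsZ f ρ → ev f i ρ A = ev f i ρ A') : A = A' := by
  rw [← sub_eq_zero]
  obtain ⟨g, hg⟩ := AdjoinRoot.mk_surjective (A - A')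
  have hev : ∀ ρ : E, IsZ f ρ → g.eval₂ i ρ = 0 := by
    intro ρ hρ
    have h1 := ev_cl i hρ g
    have h2 : cl f k g = A - A' := hg
    rw [h2, ev_sub i hρ, h ρ hρ, sub_self] at h1
    exact h1.symm
  rw [← hg, AdjoinRoot.mk_eq_zero, ← map_dvd_map' i, Polynomial.map_map]
  by_cases hg0 : g = 0
  · rw [hg0, Polynomial.map_zero]
    exact dvd_zero _
  have hgi : g.map i ≠ 0 := (Polynomial.map_ne_zero_iff i.injective).2 hg0
  have e1 : f.map (i.comp (Int.castRingHom k)) = f.map (Int.castRingHom E) :=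
    congrArg (fun j => f.map j) (RingHom.ext_int _ _)
  rw [e1]
  have hsep : (f.map (Int.castRingHom E)).Separable := by
    have hchar : CharZero E := charZero_of_injective_ringHom i.injective
    have h1 : (f.map (Int.castRingHom ℚ)).Separable := hf.separable
    have h2 := h1.map (f := algebraMap ℚ E)
    rw [Polynomial.map_map] at h2
    have e2 : f.map ((algebraMap ℚ E).comp (Int.castRingHom ℚ)) = f.map (Int.castRingHom E) :=
      congrArg (fun j => f.map j) (RingHom.ext_int _ _)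
    rwa [e2] at h2
  have hsplit : (f.map (Int.castRingHom E)).Splits := IsAlgClosed.splits _
  have h3 := hsplit.eq_prod_roots
  rw [h3]
  have hf0 : (f.map (Int.castRingHom E)) ≠ 0 := hsep.ne_zero
  have hlc : IsUnit (C ((f.map (Int.castRingHom E)).leadingCoeff)) :=
    isUnit_C.mpr (isUnit_iff_ne_zero.mpr (leadingCoeff_ne_zero.mpr hf0))
  rw [hlc.mul_left_dvd, Multiset.prod_X_sub_C_dvd_iff_le_roots hgi,
    Multiset.le_iff_subset (nodup_roots hsep)]
  intro ρ hρ
  rw [mem_roots hf0] at hρ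
  rw [mem_roots hgi, IsRoot, eval_map]
  exact hev ρ hρ

/-- the image of a point -/
noncomputable def mpt {f : ℤ[X]} {m : ℕ} {D : ℤ} {K L : Type} [Field K] [Field L] (φ : K →+* L)
    (P : Point f m D K) : Point f m D L where
  x := φ P.x
  w := φ P.w
  y := φ P.y
  ne := by
    rcases P.ne with h | h
    · exact Or.inl ((map_ne_zero φ).2 h)
    · exact Or.inr ((map_ne_zero φ).2 h)
  eq := by
    have h := congrArg φ P.eq
    unfold Pool.Agent.Q51.SE.hom at h ⊢
    rw [map_mul, map_intCast, map_pow, map_sum] at h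
    rw [h]
    refine sum_congr rfl fun i _ => ?_
    rw [map_mul, map_mul, map_pow, map_pow, map_intCast]

lemma val_chg (hN : S_NRM) {f : ℤ[X]} (hf : Irreducible (f.map (Int.castRingHom ℚ)))
    {K L : Type} [Field K] [Field L] [CharZero K] [CharZero L] (φ : K →+* L) {q m : ℕ} {D : ℤ}
    {P : Point f m D K} {b : (Alg f K)ˣ} (h : IsValue q P b) :
    IsValue q (mpt φ P) (Units.map (chg f φ).toMonoidHom b) := by
  obtain ⟨h1, z, h2⟩ := h
  have e0 : ((Units.map (chg f φ).toMonoidHom b : (Alg f L)ˣ) : Alg f L) = chg f φ (b : Alg f K) := rfl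
  refine ⟨?_, φ z, ?_⟩
  · have h3 := congrArg (chg f φ) h1
    rw [map_mul, map_sub, map_zero, chg_cl] at h3
    rw [e0]
    have e1 : (C P.x - C P.w * X).map φ = C ((mpt φ P).x) - C ((mpt φ P).w) * X := by
      rw [Polynomial.map_sub, Polynomial.map_mul, map_C, map_C, map_X]
      rfl
    rw [e1] at h3
    exact h3
  · rw [e0, norm_chg hN hf]
    have h3 := congrArg φ h2
    rw [map_mul, map_mul, map_intCast, map_intCast, map_pow] at h3
    exact h3

/-- zero-cycles from finite families -/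
lemma zlist {f : ℤ[X]} {m q : ℕ} {D : ℤ} {p : ℕ} [Fact p.Prime] {β : Type} [DecidableEq β]
    (Pt : β → LPt f m D p) (A : β → (Alg f ℚ_[p])ˣ) (h : ∀ i, (Pt i).IsVal q (A i)) (I : Finset β) :
    ∃ z : List (ℤ × LPt f m D p), zdeg z = ∑ i ∈ I, ((Pt i).deg : ℤ) ∧ ZVal q z (∏ i ∈ I, A i) := by
  induction I using Finset.induction_on with
  | empty => exact ⟨[], rfl, rfl⟩
  | insert a I ha ih =>
    obtain ⟨z, hz1, hz2⟩ := ih
    refine ⟨(1, Pt a) :: z, ?_, A a, ∏ i ∈ I, A i, h a, hz2, ?_⟩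
    · rw [sum_insert ha, ← hz1]
      unfold zdeg
      rw [List.map_cons, List.sum_cons, one_mul]
    · rw [prod_insert ha]
      show A a * _ = A a ^ (1 : ℤ) * _
      rw [zpow_one]

/-- **DEC** -/
theorem dec (h1 : S_NRM) : S_DEC := by
  classical
  intro f hf q m D K _ _ P b hb p _
  obtain ⟨β, hβ, Y, hdeg, hprod⟩ := decomp ℚ_[p] (Om p) K
  have hch : ∀ i, CharZero (Y i).L := fun i => charZero_of_injective_ringHom (Y i).φ.injective
  obtain ⟨z, hz1, hz2⟩ := zlist (q := q) (fun i => ({ K := (Y i).L, pt := mpt (Y i).φ P } : LPt f m D p))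
    (fun i => Units.map (nrm f ℚ_[p] (Y i).L) (Units.map (chg f (Y i).φ).toMonoidHom b))
    (fun i => ⟨_, val_chg h1 hf (Y i).φ hb, rfl⟩) univ
  refine ⟨z, ?_, ?_⟩
  · rw [hz1, ← hdeg]
    push_cast
    rfl
  · have hkey : ∏ i, Units.map (nrm f ℚ_[p] (Y i).L) (Units.map (chg f (Y i).φ).toMonoidHom b) =
        Units.map (bas f ℚ ℚ_[p]).toMonoidHom (Units.map (nrm f ℚ K) b) := by
      apply Units.ext
      apply ev_inj hf (algebraMap ℚ_[p] (Om p))
      intro ρ hρ
      obtain ⟨ψ, hψ, -⟩ := ev_hom (F := ℚ_[p]) (algebraMap ℚ_[p] (Om p)) hρ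
      rw [hψ, Units.coe_prod, map_prod]
      have e1 : ∀ i, ψ ((Units.map (nrm f ℚ_[p] (Y i).L) (Units.map (chg f (Y i).φ).toMonoidHom b) :
          (Alg f ℚ_[p])ˣ) : Alg f ℚ_[p]) =
          ∏ τ : (Y i).L →ₐ[ℚ_[p]] Om p, ev f ((τ : (Y i).L →+* Om p).comp (Y i).φ) ρ (b : Alg f K) := by
        intro i
        rw [← hψ]
        have e2 := (h1 f hf).1 ℚ_[p] (Y i).L (Om p) ρ hρ (chg f (Y i).φ (b : Alg f K))
        refine e2.trans ?_
        refine prod_congr rfl fun τ _ => ?_
        exact ev_chg _ _ hρ _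
      rw [prod_congr rfl fun i _ => e1 i]
      rw [hprod (Om p) (fun σ => ev f σ ρ (b : Alg f K))]
      have e3 : ev f (algebraMap ℚ_[p] (Om p)) ρ
          ((Units.map (bas f ℚ ℚ_[p]).toMonoidHom (Units.map (nrm f ℚ K) b) : (Alg f ℚ_[p])ˣ) :
            Alg f ℚ_[p]) = ev f ((algebraMap ℚ_[p] (Om p)).comp (algebraMap ℚ ℚ_[p])) ρ
              (nrm f ℚ K (b : Alg f K)) := ev_chg _ _ hρ _
      rw [e3]
      have e4 : (algebraMap ℚ_[p] (Om p)).comp (algebraMap ℚ ℚ_[p]) = algebraMap ℚ (Om p) :=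
        Subsingleton.elim _ _
      rw [e4, (h1 f hf).1 ℚ K (Om p) ρ hρ]
      exact (Fintype.prod_equiv (RingHom.equivRatAlgHom K (Om p)).symm _ _ (fun σ => rfl)).symm
    rw [← hkey]
    exact hz2

end Pool.Agent.Q150.ZC
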